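import Mathlib

set_option autoImplicit false

open Filter Topology Finset

namespace Pool.Agent.Lib.MP_b372c7_an.Iso

/-- Harmonic sums. -/
noncomputable def harm (n : ℕ) : ℝ := ∑ k ∈ range n, 1 / ((k : ℝ) + 1)

theorem harm_le (n : ℕ) : harm n ≤ n := by
  unfold harm
  calc ∑ k ∈ range n, 1 / ((k : ℝ) + 1) ≤ ∑ _k ∈ range n, (1 : ℝ) := by
        refine sum_le_sum (fun k _ => ?_)
        rw [div_le_one (by positivity)]
        have : (0 : ℝ) ≤ k := Nat.cast_nonneg k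
        linarith
    _ = n := by simp

theorem harm_nonneg (n : ℕ) : 0 ≤ harm n := sum_nonneg (fun k _ => by positivity)

theorem harm_mono {m n : ℕ} (h : m ≤ n) : harm m ≤ harm n :=
  sum_le_sum_of_subset_of_nonneg (range_mono h) (fun k _ _ => by positivity)

theorem harm_unbounded (c : ℝ) : ∃ n : ℕ, c ≤ harm n := by
  have := Real.tendsto_sum_range_one_div_nat_succ_atTop
  exact (this.eventually (eventually_ge_atTop c)).exists

/-- Two-sided parallelogram bounds with constant `U` and error `η`. -/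
def Two (E : Type*) [NormedAddCommGroup E] (U η : ℝ) : Prop :=
  (∀ x h : E, ‖x + h‖ ^ 2 + ‖x - h‖ ^ 2 ≤ 2 * ‖x‖ ^ 2 + U * ‖h‖ ^ 2 + η * ‖x‖ ^ 2) ∧
  (∀ x h : E, 2 * ‖x‖ ^ 2 + ‖h‖ ^ 2 / U - η * ‖x‖ ^ 2 ≤ ‖x + h‖ ^ 2 + ‖x - h‖ ^ 2)

/-- Nearly quadratic moduli: the constants grow slowly against the errors. -/
def NQ (E : Type*) [NormedAddCommGroup E] : Prop :=
  ∀ M : ℝ, ∃ (U η : ℝ) (n : ℕ), 1 ≤ U ∧ 0 ≤ η ∧ η * n ≤ 1 ∧ M * U ^ 2 ≤ harm n ∧ Two E U η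

theorem small {M U η : ℝ} {n : ℕ} (hM : 0 ≤ M) (hU : 1 ≤ U) (hη : 0 ≤ η) (h1 : η * n ≤ 1)
    (h2 : M * U ^ 2 ≤ harm n) : M * (η * U) ≤ 1 := by
  have h3 := harm_le n
  have h4 : M * U ≤ M * U ^ 2 := by
    have : U ≤ U ^ 2 := by nlinarith
    exact mul_le_mul_of_nonneg_left this hM
  have h5 : η * (M * U) ≤ η * n := mul_le_mul_of_nonneg_left (by linarith) hη
  nlinarith

theorem quad {s A B : ℝ} (h : ∀ t : ℝ, t * s ≤ A + B * t ^ 2) : s ^ 2 ≤ 4 * A * B := by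
  have := discrim_le_zero (a := B) (b := -s) (c := A) (fun t => by have := h t; nlinarith)
  unfold discrim at this
  nlinarith

/-- A finite form of the lemma of Jones. -/
theorem jones (a b : ℕ → ℝ) (Q : ℕ → ℝ → Prop) (R : ℝ) (ha : ∀ k, 0 ≤ a k) (hb : ∀ k, 0 ≤ b k)
    (hR : ∀ n, ∑ k ∈ range n, b k ≤ R)
    (h : ∀ M : ℝ, ∃ (U η : ℝ) (n : ℕ), 1 ≤ U ∧ 0 ≤ η ∧ η * n ≤ 1 ∧ M * U ^ 2 ≤ harm n ∧
      (∀ k, a k ^ 2 ≤ 8 * U * (b k + 2 * η * R)) ∧ ∀ k, Q k (2 * √(U * (b k + η * R))))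
    (K : ℝ) (hK : 0 ≤ K) (ε : ℝ) (hε : 0 < ε) (N : ℕ) :
    ∃ k, N ≤ k ∧ ∃ τ, 0 ≤ τ ∧ Q k τ ∧ τ * (∑ i ∈ range (k + 1), a i + K) ≤ ε := by
  by_contra hcon
  push Not at hcon
  have hR0 : 0 ≤ R := by simpa using hR 0
  set C : ℝ := 48 * R + 2 * K ^ 2 + 1 with hC
  have hC0 : 0 < C := by positivity
  obtain ⟨U, η, n, hU, hη, hηn, hM, h1, h2⟩ := h (8 * R * C / ε ^ 2 + harm N + 1)
  have hU2 : 1 ≤ U ^ 2 := by nlinarith
  have hN0 := harm_nonneg N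
  have hbig : 8 * R * C / ε ^ 2 * U ^ 2 + harm N + 1 ≤ harm n := by nlinarith
  have hq : 0 ≤ 8 * R * C / ε ^ 2 * U ^ 2 := by positivity
  have hNn : N ≤ n := by
    by_contra hlt
    have := harm_mono (le_of_lt (not_le.mp hlt))
    linarith
  have hstep : ∀ k ∈ Ico N n, ε ^ 2 / (4 * U ^ 2 * C) * (1 / ((k : ℝ) + 1)) ≤ b k + η * R := by
    intro k hk
    rw [mem_Ico] at hk
    have hbk := hb k
    have hlt := hcon k hk.1 _ (by positivity) (h2 k)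
    set A := ∑ i ∈ range (k + 1), a i with hA
    have hA0 : 0 ≤ A := sum_nonneg (fun i _ => ha i)
    set m : ℝ := (k : ℝ) + 1 with hm
    have hm1 : 1 ≤ m := by have : (0 : ℝ) ≤ k := Nat.cast_nonneg k; linarith
    have hmn : m ≤ n := by rw [hm]; exact_mod_cast hk.2
    have hηm : η * m ≤ 1 := (mul_le_mul_of_nonneg_left hmn hη).trans hηn
    have hsq : ∑ i ∈ range (k + 1), a i ^ 2 ≤ 24 * U * R := by
      calc ∑ i ∈ range (k + 1), a i ^ 2 ≤ ∑ i ∈ range (k + 1), 8 * U * (b i + 2 * η * R) :=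
            sum_le_sum (fun i _ => h1 i)
        _ = 8 * U * (∑ i ∈ range (k + 1), b i + 2 * (η * m) * R) := by
            rw [← mul_sum, sum_add_distrib, sum_const, card_range, nsmul_eq_mul]
            push_cast
            ring
        _ ≤ 8 * U * (R + 2 * 1 * R) := by
            have := hR (k + 1)
            gcongr
        _ = 24 * U * R := by ring
    have hCS : A ^ 2 ≤ m * (24 * U * R) := by
      have h3 := sq_sum_le_card_mul_sum_sq (s := range (k + 1)) (f := a)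
      rw [card_range] at h3
      push_cast at h3
      exact h3.trans (by gcongr)
    have hAK : (A + K) ^ 2 ≤ m * U * C := by
      have e1 : 1 ≤ m * U := by nlinarith
      have e2 : 2 * K ^ 2 + 1 ≤ m * U * (2 * K ^ 2 + 1) := by nlinarith [sq_nonneg K]
      have e3 : m * U * C = 2 * (m * (24 * U * R)) + m * U * (2 * K ^ 2 + 1) := by rw [hC]; ring
      nlinarith [sq_nonneg (A - K)]
    have hw : 0 ≤ U * (b k + η * R) := by positivity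
    have h4 : ε ^ 2 ≤ (2 * √(U * (b k + η * R)) * (A + K)) ^ 2 := by gcongr
    rw [mul_pow, mul_pow, Real.sq_sqrt hw] at h4
    have h5 : ε ^ 2 ≤ 2 ^ 2 * (U * (b k + η * R)) * (m * U * C) := h4.trans (by gcongr)
    rw [mul_one_div, div_div, div_le_iff₀ (by positivity)]
    nlinarith
  have hsum := sum_le_sum hstep
  rw [← mul_sum, sum_add_distrib, sum_const, Nat.card_Ico, nsmul_eq_mul] at hsum
  have e1 : ∑ k ∈ Ico N n, 1 / ((k : ℝ) + 1) = harm n - harm N := by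
    unfold harm
    rw [sum_Ico_eq_sub _ hNn]
  have e2 : ∑ k ∈ Ico N n, b k ≤ R := by
    refine le_trans (sum_le_sum_of_subset_of_nonneg ?_ (fun i _ _ => hb i)) (hR n)
    intro i hi
    rw [mem_Ico] at hi
    exact mem_range.mpr hi.2
  have e3 : ((n - N : ℕ) : ℝ) * (η * R) ≤ R := by
    have : ((n - N : ℕ) : ℝ) ≤ n := by exact_mod_cast Nat.sub_le n N
    have h6 : ((n - N : ℕ) : ℝ) * η ≤ 1 := by nlinarith
    nlinarith
  rw [e1] at hsum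
  have e4 : ε ^ 2 / (4 * U ^ 2 * C) * (8 * R * C / ε ^ 2 * U ^ 2 + 1) ≤ 2 * R := by
    refine le_trans ?_ (hsum.trans (by linarith))
    gcongr
    linarith
  have e5 : ε ^ 2 / (4 * U ^ 2 * C) * (8 * R * C / ε ^ 2 * U ^ 2 + 1) =
      2 * R + ε ^ 2 / (4 * U ^ 2 * C) := by
    field_simp
    ring
  have e6 : 0 < ε ^ 2 / (4 * U ^ 2 * C) := by positivity
  linarith

variable {E : Type*} [NormedAddCommGroup E] [NormedSpace ℝ E]

theorem exists_sub : ∃ J : E → E →L[ℝ] ℝ, ∀ x h, ‖x‖ ^ 2 + J x h ≤ ‖x + h‖ ^ 2 := by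
  choose φ h1 h2 using fun x : E => exists_dual_vector'' ℝ x
  refine ⟨fun x => (2 * ‖x‖) • φ x, fun x h => ?_⟩
  have h3 : |φ x (x + h)| ≤ ‖x + h‖ := by
    have := (φ x).le_opNorm (x + h)
    rw [Real.norm_eq_abs] at this
    exact this.trans (by nlinarith [norm_nonneg (x + h), h1 x])
  have h4 : φ x x = ‖x‖ := by simpa using h2 x
  rw [map_add, h4] at h3
  have h5 : (‖x‖ + φ x h) ^ 2 ≤ ‖x + h‖ ^ 2 := by
    rw [← sq_abs]
    gcongr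
  simp only [smul_apply, smul_eq_mul]
  nlinarith [sq_nonneg (φ x h)]

section
variable {J : E → E →L[ℝ] ℝ} (hJ : ∀ x h, ‖x‖ ^ 2 + J x h ≤ ‖x + h‖ ^ 2) {U η : ℝ}
include hJ

theorem upper (hT : Two E U η) (x h : E) :
    ‖x + h‖ ^ 2 ≤ ‖x‖ ^ 2 + J x h + U * ‖h‖ ^ 2 + η * ‖x‖ ^ 2 := by
  have h1 := hT.1 x h
  have h2 := hJ x (-h)
  rw [map_neg, ← sub_eq_add_neg x] at h2
  linarith

theorem lower (hT : Two E U η) (hU : 1 ≤ U) (hη : 0 ≤ η) (hs : 4 * (η * U) ≤ 1) (x d : E) :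
    ‖x‖ ^ 2 + J x d + ‖d‖ ^ 2 / (8 * U) - 2 * η * ‖x‖ ^ 2 ≤ ‖x + d‖ ^ 2 := by
  have h1 := hT.2 (x + (1 / 2 : ℝ) • d) ((1 / 2 : ℝ) • d)
  have e1 : x + (1 / 2 : ℝ) • d + (1 / 2 : ℝ) • d = x + d := by module
  have e2 : ‖(1 / 2 : ℝ) • d‖ = ‖d‖ / 2 := by rw [norm_smul]; simp; ring
  rw [e1, add_sub_cancel_right, e2] at h1
  have h2 := hJ x ((1 / 2 : ℝ) • d)
  rw [map_smul, smul_eq_mul] at h2
  have h3 : ‖x + (1 / 2 : ℝ) • d‖ ≤ ‖x‖ + ‖d‖ / 2 := by rw [← e2]; exact norm_add_le _ _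
  have h4 : ‖x + (1 / 2 : ℝ) • d‖ ^ 2 ≤ 2 * ‖x‖ ^ 2 + ‖d‖ ^ 2 / 2 := by
    have : ‖x + (1 / 2 : ℝ) • d‖ ^ 2 ≤ (‖x‖ + ‖d‖ / 2) ^ 2 := by gcongr
    nlinarith [sq_nonneg (‖x‖ - ‖d‖ / 2)]
  have h5 := mul_le_mul_of_nonneg_left h4 hη
  have hU0 : 0 < U := by linarith
  have h6 : η * (‖d‖ ^ 2 / 2) ≤ ‖d‖ ^ 2 / (8 * U) := by
    rw [le_div_iff₀ (by positivity)]
    nlinarith [sq_nonneg ‖d‖]
  have h7 : (‖d‖ / 2) ^ 2 / U = 2 * (‖d‖ ^ 2 / (8 * U)) := by field_simp; ring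
  nlinarith

theorem cross (hT : Two E U η) (x y g : E) (h1 : J x g = 0) (h2 : J y (x - y) = 0) :
    (J y g) ^ 2 ≤ 4 * (‖x‖ ^ 2 - ‖y‖ ^ 2 + η * ‖x‖ ^ 2) * (U * ‖g‖ ^ 2) := by
  refine quad (fun t => ?_)
  have a1 := hJ y (x - y + t • g)
  have a2 := upper hJ hT x (t • g)
  have e : y + (x - y + t • g) = x + t • g := by abel
  rw [e, map_add, h2, map_smul, smul_eq_mul] at a1
  rw [map_smul, h1, norm_smul, mul_pow, Real.norm_eq_abs, sq_abs, smul_eq_mul] at a2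
  nlinarith

theorem orth (hE : NQ E) (y g : E) (h : ∀ t : ℝ, ‖y‖ ≤ ‖y + t • g‖) : J y g = 0 := by
  by_contra hne
  have hpos : 0 < (J y g) ^ 2 := by positivity
  obtain ⟨U, η, n, hU, hη, h1, h2, hT⟩ := hE ((4 * ‖y‖ ^ 2 * ‖g‖ ^ 2 + 1) / (J y g) ^ 2)
  have hs := small (by positivity) hU hη h1 h2
  have h3 : (-J y g) ^ 2 ≤ 4 * (η * ‖y‖ ^ 2) * (U * ‖g‖ ^ 2) := by
    refine quad (fun t => ?_)
    have a2 := upper hJ hT y (t • g)
    rw [map_smul, norm_smul, mul_pow, Real.norm_eq_abs, sq_abs, smul_eq_mul] at a2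
    have a1 : ‖y‖ ^ 2 ≤ ‖y + t • g‖ ^ 2 := by have := h t; gcongr
    nlinarith
  rw [div_mul_eq_mul_div, div_le_one hpos] at hs
  have h4 : 0 ≤ η * U := by positivity
  rcases h4.eq_or_lt with h5 | h5
  · have : 4 * (η * ‖y‖ ^ 2) * (U * ‖g‖ ^ 2) = 4 * ‖y‖ ^ 2 * ‖g‖ ^ 2 * (η * U) := by ring
    rw [this, ← h5] at h3
    nlinarith
  · nlinarith

theorem coarse (hE : NQ E) (ε : ℝ) (hε : 0 < ε) (R : ℝ) (hR : 0 ≤ R) :
    ∃ c, 0 < c ∧ ∀ x d : E, ‖x‖ ^ 2 ≤ R → ε ≤ ‖d‖ → ‖x‖ ^ 2 + J x d + c ≤ ‖x + d‖ ^ 2 := by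
  obtain ⟨U, η, n, hU, hη, h1, h2, hT⟩ := hE (32 * R / ε ^ 2 + 4)
  have hs := small (by positivity) hU hη h1 h2
  have h4 : 0 ≤ η * U := by positivity
  have h5 : 0 ≤ 32 * R / ε ^ 2 * (η * U) := by positivity
  have hU0 : 0 < U := by linarith
  refine ⟨ε ^ 2 / (16 * U), by positivity, fun x d hx hd => ?_⟩
  have h3 := lower hJ hT hU hη (by nlinarith) x d
  have h6 : ε ^ 2 / (8 * U) ≤ ‖d‖ ^ 2 / (8 * U) := by gcongr
  have h7 : 32 * R / ε ^ 2 * (η * U) ≤ 1 := by nlinarith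
  have h8 : 2 * η * R ≤ ε ^ 2 / (16 * U) := by
    rw [div_mul_eq_mul_div, div_le_one (by positivity)] at h7
    rw [le_div_iff₀ (by positivity)]
    nlinarith
  have h9 : ε ^ 2 / (8 * U) = 2 * (ε ^ 2 / (16 * U)) := by field_simp; ring
  have h10 : 2 * η * ‖x‖ ^ 2 ≤ 2 * η * R := by gcongr
  linarith

end

end Pool.Agent.Lib.MP_b372c7_an.Iso
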