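import Mathlib
import Pool.Agent.Lib.MP_b372c7_an.Iso.Basic

set_option autoImplicit false

open Filter Topology Finset

namespace Pool.Agent.Lib.MP_b372c7_an.Iso

variable {E : Type*} [NormedAddCommGroup E] [NormedSpace ℝ E]

theorem alternating [CompleteSpace E] (hE : NQ E) {J : E → E →L[ℝ] ℝ}
    (hJ : ∀ x h, ‖x‖ ^ 2 + J x h ≤ ‖x + h‖ ^ 2) (G₁ G₂ : Submodule ℝ E) (r : ℕ → E)
    (h1 : ∀ n, r n - r (n + 1) ∈ G₁ ∨ r n - r (n + 1) ∈ G₂)
    (h2 : ∀ n, J (r (n + 1)) (r n - r (n + 1)) = 0)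
    (h3 : ∀ n, ∀ g ∈ G₁, J (r (n + 1)) g = 0 ∨ J (r (n + 2)) g = 0)
    (h4 : ∀ n, ∀ g ∈ G₂, J (r (n + 1)) g = 0 ∨ J (r (n + 2)) g = 0) :
    ∃ y, Tendsto r atTop (𝓝 y) ∧ ∀ u ∈ G₁, ∀ v ∈ G₂, ‖y‖ ^ 2 ≤ ‖r 0 - (u + v)‖ ^ 2 := by
  set a : ℕ → ℝ := fun n => ‖r n - r (n + 1)‖ with ha
  set b : ℕ → ℝ := fun n => ‖r n‖ ^ 2 - ‖r (n + 1)‖ ^ 2 with hb
  set R : ℝ := ‖r 0‖ ^ 2 with hR
  have ha0 : ∀ n, 0 ≤ a n := fun n => norm_nonneg _
  have hb0 : ∀ n, 0 ≤ b n := by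
    intro n
    have := hJ (r (n + 1)) (r n - r (n + 1))
    rw [h2 n, add_zero, add_sub_cancel] at this
    simp only [hb]
    linarith
  have hanti : Antitone (fun n => ‖r n‖ ^ 2) := by
    refine antitone_nat_of_succ_le (fun n => ?_)
    have := hb0 n
    simp only [hb] at this
    linarith
  have hrR : ∀ n, ‖r n‖ ^ 2 ≤ R := fun n => hanti (Nat.zero_le n)
  have hsum : ∀ n, ∑ k ∈ range n, b k ≤ R := by
    intro n
    have : ∑ k ∈ range n, b k = ‖r 0‖ ^ 2 - ‖r n‖ ^ 2 := sum_range_sub' (fun k => ‖r k‖ ^ 2) n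
    rw [this]
    nlinarith [sq_nonneg ‖r n‖]
  set Q : ℕ → ℝ → Prop := fun k τ => ∀ g, J (r k) g = 0 → |J (r (k + 1)) g| ≤ τ * ‖g‖ with hQ
  have hjon : ∀ M : ℝ, ∃ (U η : ℝ) (n : ℕ), 1 ≤ U ∧ 0 ≤ η ∧ η * n ≤ 1 ∧ M * U ^ 2 ≤ harm n ∧
      (∀ k, a k ^ 2 ≤ 8 * U * (b k + 2 * η * R)) ∧ ∀ k, Q k (2 * √(U * (b k + η * R))) := by
    intro M
    obtain ⟨U, η, n, hU, hη, e1, e2, hT⟩ := hE (max M 4)
    have hs := small (le_max_of_le_right (by norm_num)) hU hη e1 e2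
    have hηU : 0 ≤ η * U := by positivity
    have hs4 : 4 * (η * U) ≤ 1 := (mul_le_mul_of_nonneg_right (le_max_right M 4) hηU).trans hs
    have hU0 : 0 < U := by linarith
    refine ⟨U, η, n, hU, hη, e1, ?_, fun k => ?_, fun k g hg => ?_⟩
    · exact (mul_le_mul_of_nonneg_right (le_max_left M 4) (by positivity)).trans e2
    · have l := lower hJ hT hU hη hs4 (r (k + 1)) (r k - r (k + 1))
      rw [h2 k, add_zero, add_sub_cancel] at l
      have l2 : 2 * η * ‖r (k + 1)‖ ^ 2 ≤ 2 * η * R := by have := hrR (k + 1); gcongr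
      have l3 : a k ^ 2 / (8 * U) ≤ b k + 2 * η * R := by simp only [ha, hb]; linarith
      rw [div_le_iff₀ (by positivity)] at l3
      linarith
    · have l := cross hJ hT (r k) (r (k + 1)) g hg (h2 k)
      have l2 : η * ‖r k‖ ^ 2 ≤ η * R := by have := hrR k; gcongr
      have hbk := hb0 k
      have hR0 : 0 ≤ R := sq_nonneg _
      have hw : 0 ≤ U * (b k + η * R) := by positivity
      refine abs_le_of_sq_le_sq' ?_ (by positivity) |> abs_le.mpr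
      rw [mul_pow, mul_pow, Real.sq_sqrt hw]
      refine l.trans ?_
      have l3 : ‖r k‖ ^ 2 - ‖r (k + 1)‖ ^ 2 + η * ‖r k‖ ^ 2 ≤ b k + η * R := by
        simp only [hb]; linarith
      calc 4 * (‖r k‖ ^ 2 - ‖r (k + 1)‖ ^ 2 + η * ‖r k‖ ^ 2) * (U * ‖g‖ ^ 2)
          ≤ 4 * (b k + η * R) * (U * ‖g‖ ^ 2) := by gcongr
        _ = _ := by ring
  set A : ℕ → ℝ := fun n => ∑ k ∈ range n, a k with hA
  have hdecomp : ∀ n, ∃ u ∈ G₁, ∃ v ∈ G₂, r 0 - r n = u + v ∧ ‖u‖ ≤ A n ∧ ‖v‖ ≤ A n := by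
    intro n
    induction n with
    | zero => exact ⟨0, G₁.zero_mem, 0, G₂.zero_mem, by simp, by simp [hA], by simp [hA]⟩
    | succ n ih =>
      obtain ⟨u, hu, v, hv, he, hnu, hnv⟩ := ih
      have hAs : A (n + 1) = A n + a n := by simp [hA, sum_range_succ]
      rcases h1 n with h | h
      · refine ⟨u + (r n - r (n + 1)), G₁.add_mem hu h, v, hv, ?_, ?_, ?_⟩
        · have : r 0 - r (n + 1) = (r 0 - r n) + (r n - r (n + 1)) := by abel
          rw [this, he]; abel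
        · rw [hAs]; exact (norm_add_le _ _).trans (by gcongr)
        · rw [hAs]; linarith [ha0 n]
      · refine ⟨u, hu, v + (r n - r (n + 1)), G₂.add_mem hv h, ?_, ?_, ?_⟩
        · have : r 0 - r (n + 1) = (r 0 - r n) + (r n - r (n + 1)) := by abel
          rw [this, he]; abel
        · rw [hAs]; linarith [ha0 n]
        · rw [hAs]; exact (norm_add_le _ _).trans (by gcongr)
  have hJb : ∀ n τ g, 0 ≤ τ → Q (n + 1) τ → (J (r (n + 1)) g = 0 ∨ J (r (n + 2)) g = 0) →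
      |J (r (n + 2)) g| ≤ τ * ‖g‖ := by
    intro n τ g hτ hq h
    rcases h with h | h
    · exact hq g h
    · rw [h, abs_zero]
      positivity
  have hkey : ∀ n τ, 0 ≤ τ → Q (n + 1) τ → ∀ u ∈ G₁, ∀ v ∈ G₂, ∀ K, ‖u‖ ≤ K → ‖v‖ ≤ K →
      -(2 * (τ * (A (n + 2) + K))) ≤ J (r (n + 2)) (r 0 - (u + v) - r (n + 2)) := by
    intro n τ hτ hq u hu v hv K hKu hKv
    obtain ⟨u', hu', v', hv', he, hnu, hnv⟩ := hdecomp (n + 2)
    have hd : r 0 - (u + v) - r (n + 2) = (u' - u) + (v' - v) := by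
      have : r 0 - (u + v) - r (n + 2) = (r 0 - r (n + 2)) - (u + v) := by abel
      rw [this, he]; abel
    have hb1 := hJb n τ (u' - u) hτ hq (h3 n _ (G₁.sub_mem hu' hu))
    have hb2 := hJb n τ (v' - v) hτ hq (h4 n _ (G₂.sub_mem hv' hv))
    have hn1 : ‖u' - u‖ ≤ A (n + 2) + K := (norm_sub_le _ _).trans (by gcongr)
    have hn2 : ‖v' - v‖ ≤ A (n + 2) + K := (norm_sub_le _ _).trans (by gcongr)
    have hb1' : |J (r (n + 2)) (u' - u)| ≤ τ * (A (n + 2) + K) := hb1.trans (by gcongr)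
    have hb2' : |J (r (n + 2)) (v' - v)| ≤ τ * (A (n + 2) + K) := hb2.trans (by gcongr)
    rw [hd, map_add]
    have := neg_abs_le (J (r (n + 2)) (u' - u))
    have := neg_abs_le (J (r (n + 2)) (v' - v))
    linarith
  have hfreq : ∀ K, 0 ≤ K → ∀ ε, 0 < ε → ∃ n τ, 0 ≤ τ ∧ Q (n + 1) τ ∧
      τ * (A (n + 2) + K) ≤ ε := by
    intro K hK ε hε
    obtain ⟨k, hk, τ, hτ, hq, hle⟩ := jones a b Q R ha0 hb0 hsum hjon K hK ε hε 1
    obtain ⟨n, rfl⟩ : ∃ n, k = n + 1 := ⟨k - 1, by omega⟩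
    exact ⟨n, τ, hτ, hq, hle⟩
  have hbdd : BddBelow (Set.range fun n => ‖r n‖ ^ 2) :=
    ⟨0, by rintro _ ⟨n, rfl⟩; exact sq_nonneg _⟩
  have hlim := tendsto_atTop_ciInf hanti hbdd
  set L := ⨅ n, ‖r n‖ ^ 2 with hL
  have hLle : ∀ n, L ≤ ‖r n‖ ^ 2 := fun n => ciInf_le hbdd n
  have hcauchy : CauchySeq r := by
    rw [Metric.cauchySeq_iff']
    intro ε hε
    obtain ⟨c, hc, hco⟩ := coarse hJ hE (ε / 2) (by positivity) R (sq_nonneg _)
    have hpos : 0 < c / 2 := by positivity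
    obtain ⟨N, hN⟩ := eventually_atTop.mp (hlim.eventually (gt_mem_nhds (lt_add_of_pos_right L hpos)))
    refine ⟨N, fun m hm => ?_⟩
    obtain ⟨u, hu, v, hv, he, hnu, hnv⟩ := hdecomp m
    obtain ⟨u', hu', v', hv', he', hnu', hnv'⟩ := hdecomp N
    have hAm : 0 ≤ A m := sum_nonneg (fun k _ => ha0 k)
    have hAN : 0 ≤ A N := sum_nonneg (fun k _ => ha0 k)
    obtain ⟨n, τ, hτ, hq, hn⟩ := hfreq (A m + A N) (by positivity) (c / 8) (by positivity)
    have k1 := hkey n τ hτ hq u hu v hv (A m + A N) (by linarith) (by linarith)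
    have k2 := hkey n τ hτ hq u' hu' v' hv' (A m + A N) (by linarith) (by linarith)
    rw [← he, sub_sub_cancel] at k1
    rw [← he', sub_sub_cancel] at k2
    have l1 := hN m hm
    have l2 := hN N le_rfl
    have l3 := hLle (n + 2)
    have e1 : ‖r m - r (n + 2)‖ < ε / 2 := by
      by_contra hcon
      have := hco _ _ (hrR (n + 2)) (not_lt.mp hcon)
      rw [add_sub_cancel] at this
      linarith
    have e2 : ‖r N - r (n + 2)‖ < ε / 2 := by
      by_contra hcon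
      have := hco _ _ (hrR (n + 2)) (not_lt.mp hcon)
      rw [add_sub_cancel] at this
      linarith
    rw [← dist_eq_norm] at e1 e2
    have := dist_triangle_right (r m) (r N) (r (n + 2))
    linarith
  obtain ⟨y, hy⟩ := cauchySeq_tendsto_of_complete hcauchy
  refine ⟨y, hy, fun u hu v hv => ?_⟩
  have hfy : ‖y‖ ^ 2 = L := tendsto_nhds_unique (hy.norm.pow 2) hlim
  rw [hfy]
  refine le_of_forall_pos_le_add (fun ε hε => ?_)
  obtain ⟨n, τ, hτ, hq, hn⟩ := hfreq (‖u‖ + ‖v‖) (by positivity) (ε / 2) (by positivity)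
  have k1 := hkey n τ hτ hq u hu v hv (‖u‖ + ‖v‖) (by linarith [norm_nonneg v])
    (by linarith [norm_nonneg u])
  have := hLle (n + 2)
  have k2 := hJ (r (n + 2)) (r 0 - (u + v) - r (n + 2))
  rw [add_sub_cancel] at k2
  linarith

theorem admits [CompleteSpace E] (hE : NQ E) (G₁ G₂ : Submodule ℝ E) (r : ℕ → E)
    (hr1 : ∀ k : ℕ, r (2 * k) - r (2 * k + 1) ∈ G₁ ∧
      ‖r (2 * k + 1)‖ = Metric.infDist (r (2 * k)) (G₁ : Set E))
    (hr2 : ∀ k : ℕ, r (2 * k + 1) - r (2 * k + 2) ∈ G₂ ∧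
      ‖r (2 * k + 2)‖ = Metric.infDist (r (2 * k + 1)) (G₂ : Set E)) :
    ∃ y : E, Filter.Tendsto r Filter.atTop (nhds y) ∧
      r 0 - y ∈ (G₁ ⊔ G₂).topologicalClosure ∧
      ‖y‖ = Metric.infDist (r 0) ((G₁ ⊔ G₂).topologicalClosure : Set E) := by
  obtain ⟨J, hJ⟩ := exists_sub (E := E)
  have om : ∀ (G : Submodule ℝ E) (x y : E), x - y ∈ G → ‖y‖ = Metric.infDist x (G : Set E) →
      ∀ g ∈ G, J y g = 0 := by
    intro G x y h1 h2 g hg
    refine orth hJ hE y g (fun t => ?_)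
    rw [h2]
    have hm : x - y - t • g ∈ (G : Set E) := G.sub_mem h1 (G.smul_mem t hg)
    refine (Metric.infDist_le_dist_of_mem hm).trans (le_of_eq ?_)
    rw [dist_eq_norm]
    congr 1
    abel
  have o1 : ∀ k, ∀ g ∈ G₁, J (r (2 * k + 1)) g = 0 := fun k => om G₁ _ _ (hr1 k).1 (hr1 k).2
  have o2 : ∀ k, ∀ g ∈ G₂, J (r (2 * k + 2)) g = 0 := fun k => om G₂ _ _ (hr2 k).1 (hr2 k).2
  have h1 : ∀ n, r n - r (n + 1) ∈ G₁ ∨ r n - r (n + 1) ∈ G₂ := by
    intro n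
    obtain ⟨k, rfl | rfl⟩ := Nat.even_or_odd' n
    · exact Or.inl (hr1 k).1
    · exact Or.inr (hr2 k).1
  have h2 : ∀ n, J (r (n + 1)) (r n - r (n + 1)) = 0 := by
    intro n
    obtain ⟨k, rfl | rfl⟩ := Nat.even_or_odd' n
    · exact o1 k _ (hr1 k).1
    · exact o2 k _ (hr2 k).1
  have h3 : ∀ n, ∀ g ∈ G₁, J (r (n + 1)) g = 0 ∨ J (r (n + 2)) g = 0 := by
    intro n g hg
    obtain ⟨k, rfl | rfl⟩ := Nat.even_or_odd' n
    · exact Or.inl (o1 k g hg)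
    · exact Or.inr (o1 (k + 1) g hg)
  have h4 : ∀ n, ∀ g ∈ G₂, J (r (n + 1)) g = 0 ∨ J (r (n + 2)) g = 0 := by
    intro n g hg
    obtain ⟨k, rfl | rfl⟩ := Nat.even_or_odd' n
    · exact Or.inr (o2 k g hg)
    · exact Or.inl (o2 k g hg)
  have hmem : ∀ n, r 0 - r n ∈ G₁ ⊔ G₂ := by
    intro n
    induction n with
    | zero => simp
    | succ n ih =>
      have : r 0 - r (n + 1) = (r 0 - r n) + (r n - r (n + 1)) := by abel
      rw [this]
      refine Submodule.add_mem _ ih ?_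
      rcases h1 n with h | h
      · exact Submodule.mem_sup_left h
      · exact Submodule.mem_sup_right h
  obtain ⟨y, hy, hmin⟩ := alternating hE hJ G₁ G₂ r h1 h2 h3 h4
  have hcl : r 0 - y ∈ (G₁ ⊔ G₂).topologicalClosure := by
    have : Tendsto (fun n => r 0 - r n) atTop (𝓝 (r 0 - y)) := tendsto_const_nhds.sub hy
    exact mem_closure_of_tendsto this (Eventually.of_forall hmem)
  refine ⟨y, hy, hcl, le_antisymm ?_ ?_⟩
  · rw [Submodule.topologicalClosure_coe, Metric.infDist_closure]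
    rw [Metric.le_infDist ⟨0, Submodule.zero_mem _⟩]
    intro g hg
    obtain ⟨u, hu, v, hv, rfl⟩ := Submodule.mem_sup.mp hg
    rw [dist_eq_norm]
    exact le_of_pow_le_pow_left₀ (n := 2) (by norm_num) (norm_nonneg _) (hmin u hu v hv)
  · refine (Metric.infDist_le_dist_of_mem hcl).trans (le_of_eq ?_)
    rw [dist_eq_norm, sub_sub_cancel]

end Pool.Agent.Lib.MP_b372c7_an.Iso
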