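import Mathlib
import Pool.Agent.Lib.MP_b372c7_an.Iso.Basic

set_option autoImplicit false

open Filter Topology Finset

namespace Pool.Agent.Lib.MP_b372c7_an.Iso

section Lq
variable {k : ℕ} {q : ℝ}

/-- The `l^q` expression of a nonnegative vector. -/
noncomputable def L (q : ℝ) (u : Fin k → ℝ) : ℝ := (∑ i, u i ^ q) ^ (1 / q)

theorem L_nonneg {u : Fin k → ℝ} (hu : ∀ i, 0 ≤ u i) : 0 ≤ L q u :=
  Real.rpow_nonneg (sum_nonneg (fun i _ => Real.rpow_nonneg (hu i) _)) _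

theorem L_mono (hq : 1 ≤ q) {u v : Fin k → ℝ} (hu : ∀ i, 0 ≤ u i) (h : ∀ i, u i ≤ v i) :
    L q u ≤ L q v := by
  have hq0 : 0 ≤ q := by linarith
  refine Real.rpow_le_rpow (sum_nonneg (fun i _ => Real.rpow_nonneg (hu i) _)) ?_ (by positivity)
  exact sum_le_sum (fun i _ => Real.rpow_le_rpow (hu i) (h i) hq0)

theorem L_add (hq : 1 ≤ q) {u v : Fin k → ℝ} (hu : ∀ i, 0 ≤ u i) (hv : ∀ i, 0 ≤ v i) :
    L q (fun i => u i + v i) ≤ L q u + L q v :=
  Real.Lp_add_le_of_nonneg univ hq (fun i _ => hu i) (fun i _ => hv i)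

theorem L_mul (hq : 1 ≤ q) {u : Fin k → ℝ} (hu : ∀ i, 0 ≤ u i) {c : ℝ} (hc : 0 ≤ c) :
    L q (fun i => c * u i) = c * L q u := by
  have hq0 : q ≠ 0 := by linarith
  unfold L
  have h1 : ∑ i, (c * u i) ^ q = c ^ q * ∑ i, u i ^ q := by
    rw [mul_sum]
    exact sum_congr rfl (fun i _ => Real.mul_rpow hc (hu i))
  rw [h1, Real.mul_rpow (Real.rpow_nonneg hc _) (sum_nonneg (fun i _ => Real.rpow_nonneg (hu i) _)),
    one_div, Real.rpow_rpow_inv hc hq0]

theorem L_comb (hq : 1 ≤ q) {u v w : Fin k → ℝ} (hu : ∀ i, 0 ≤ u i) (hv : ∀ i, 0 ≤ v i)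
    (hw : ∀ i, 0 ≤ w i) {a b : ℝ} (ha : 0 ≤ a) (hb : 0 ≤ b) (h : ∀ i, w i ≤ a * u i + b * v i) :
    L q w ≤ a * L q u + b * L q v := by
  refine (L_mono hq hw h).trans ?_
  rw [← L_mul hq hu ha, ← L_mul hq hv hb]
  exact L_add hq (fun i => mul_nonneg ha (hu i)) (fun i => mul_nonneg hb (hv i))

theorem le_L (hq : 1 ≤ q) {u : Fin k → ℝ} (hu : ∀ i, 0 ≤ u i) (i : Fin k) : u i ≤ L q u := by
  have hq0 : 0 < q := by linarith
  have h1 : u i ^ q ≤ ∑ j, u j ^ q :=
    single_le_sum (f := fun j => u j ^ q) (fun j _ => Real.rpow_nonneg (hu j) _) (mem_univ i)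
  have h2 := Real.rpow_le_rpow (Real.rpow_nonneg (hu i) _) h1 (z := 1 / q) (by positivity)
  rwa [one_div, Real.rpow_rpow_inv (hu i) hq0.ne', ← one_div] at h2

theorem L_one : L q (fun _ : Fin k => (1 : ℝ)) = (k : ℝ) ^ (1 / q) := by
  simp [L]

theorem L_rev (hq : 1 ≤ q) {u v : Fin k → ℝ} (hu : ∀ i, 0 ≤ u i) (hv : ∀ i, 0 ≤ v i) :
    L q u + L q v ≤ 2 ^ (1 - 1 / q) * L q (fun i => u i + v i) := by
  have hq0 : 0 < q := by linarith
  set A := ∑ i, u i ^ q with hA
  set B := ∑ i, v i ^ q with hB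
  have hA0 : 0 ≤ A := sum_nonneg (fun i _ => Real.rpow_nonneg (hu i) _)
  have hB0 : 0 ≤ B := sum_nonneg (fun i _ => Real.rpow_nonneg (hv i) _)
  have h1 : A + B ≤ ∑ i, (u i + v i) ^ q := by
    rw [hA, hB, ← sum_add_distrib]
    exact sum_le_sum (fun i _ => Real.add_rpow_le_rpow_add (hu i) (hv i) hq)
  have hc : ConcaveOn ℝ (Set.Ici 0) (fun x : ℝ => x ^ (1 / q)) :=
    Real.concaveOn_rpow (by positivity) (by rw [div_le_one hq0]; exact hq)
  have h2 := hc.2 (Set.mem_Ici.mpr hA0) (Set.mem_Ici.mpr hB0)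
    (show (0 : ℝ) ≤ 1 / 2 by norm_num) (show (0 : ℝ) ≤ 1 / 2 by norm_num) (by norm_num)
  simp only [smul_eq_mul] at h2
  have h3 : (1 / 2 * A + 1 / 2 * B) ^ (1 / q) = 2 ^ (-(1 / q)) * (A + B) ^ (1 / q) := by
    rw [← mul_add, Real.mul_rpow (by norm_num) (by positivity), Real.rpow_neg (by norm_num),
      one_div (2 : ℝ), Real.inv_rpow (by norm_num)]
  have h4 : (A + B) ^ (1 / q) ≤ L q (fun i => u i + v i) :=
    Real.rpow_le_rpow (by positivity) h1 (by positivity)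
  have h5 : (2 : ℝ) ^ (1 - 1 / q) = 2 * 2 ^ (-(1 / q)) := by
    rw [sub_eq_add_neg, Real.rpow_add (by norm_num), Real.rpow_one]
  have h6 : (0 : ℝ) ≤ 2 ^ (-(1 / q)) := by positivity
  have h7 := mul_le_mul_of_nonneg_left h4 h6
  change A ^ (1 / q) + B ^ (1 / q) ≤ _
  rw [h5]
  nlinarith

/-- The square of the `l^(2q)` norm. -/
noncomputable def N (q : ℝ) (x : Fin k → ℝ) : ℝ := L q (fun i => x i ^ 2)

/-- The square of the Euclidean norm. -/
def S (x : Fin k → ℝ) : ℝ := ∑ i, x i ^ 2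

theorem N_nonneg (x : Fin k → ℝ) : 0 ≤ N q x := L_nonneg (fun _ => sq_nonneg _)

theorem S_nonneg (x : Fin k → ℝ) : 0 ≤ S x := sum_nonneg (fun _ _ => sq_nonneg _)

theorem N_smul (hq : 1 ≤ q) (t : ℝ) (x : Fin k → ℝ) : N q (t • x) = t ^ 2 * N q x := by
  unfold N
  rw [← L_mul hq (fun _ => sq_nonneg _) (sq_nonneg t)]
  congr 1
  ext i
  simp [mul_pow]

theorem S_smul (t : ℝ) (x : Fin k → ℝ) : S (t • x) = t ^ 2 * S x := by
  unfold S
  rw [mul_sum]
  exact sum_congr rfl (fun i _ => by simp [mul_pow])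

theorem sq_sub {s t : ℝ} (hs : 0 < s) (ht : 0 < t) (a b : ℝ) :
    (a + b) ^ 2 ≤ (s + t) / s * a ^ 2 + (s + t) / t * b ^ 2 := by
  have h : (s + t) / s * a ^ 2 + (s + t) / t * b ^ 2 - (a + b) ^ 2 =
      (t * a - s * b) ^ 2 / (s * t) := by
    field_simp
    ring
  have : 0 ≤ (t * a - s * b) ^ 2 / (s * t) := by positivity
  linarith

theorem N_sub (hq : 1 ≤ q) {s t : ℝ} (hs : 0 < s) (ht : 0 < t) (x y : Fin k → ℝ) :
    N q (x + y) ≤ (s + t) / s * N q x + (s + t) / t * N q y :=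
  L_comb hq (fun _ => sq_nonneg _) (fun _ => sq_nonneg _) (fun _ => sq_nonneg _)
    (by positivity) (by positivity) (fun i => sq_sub hs ht (x i) (y i))

theorem S_sub {s t : ℝ} (hs : 0 < s) (ht : 0 < t) (x y : Fin k → ℝ) :
    S (x + y) ≤ (s + t) / s * S x + (s + t) / t * S y := by
  unfold S
  rw [mul_sum, mul_sum, ← sum_add_distrib]
  exact sum_le_sum (fun i _ => sq_sub hs ht (x i) (y i))

theorem S_par (x y : Fin k → ℝ) : S (x + y) + S (x - y) = 2 * S x + 2 * S y := by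
  unfold S
  rw [mul_sum, mul_sum, ← sum_add_distrib, ← sum_add_distrib]
  exact sum_congr rfl (fun i _ => by simp only [Pi.add_apply, Pi.sub_apply]; ring)

theorem N_par (hq : 1 ≤ q) (x y : Fin k → ℝ) :
    N q (x + y) + N q (x - y) ≤ 2 ^ (1 - 1 / q) * (2 * N q x + 2 * N q y) := by
  refine (L_rev hq (fun _ => sq_nonneg _) (fun _ => sq_nonneg _)).trans ?_
  refine mul_le_mul_of_nonneg_left ?_ (by positivity)
  refine L_comb hq (fun _ => sq_nonneg _) (fun _ => sq_nonneg _) (fun _ => by positivity)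
    (by norm_num) (by norm_num) (fun i => le_of_eq ?_)
  simp only [Pi.add_apply, Pi.sub_apply]
  ring

/-- The quadratic interpolation functional between `l^(2q)` and `l^2`. -/
noncomputable def P (q : ℝ) (x : Fin k → ℝ) : ℝ := ⨅ y : Fin k → ℝ, (N q y + S (x - y))

theorem P_le (x y : Fin k → ℝ) : P q x ≤ N q y + S (x - y) :=
  ciInf_le ⟨0, by rintro _ ⟨z, rfl⟩; exact add_nonneg (N_nonneg _) (S_nonneg _)⟩ y

theorem le_P {c a : ℝ} (ha : 0 < a) (x : Fin k → ℝ) (h : ∀ y, c ≤ a * (N q y + S (x - y))) :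
    c ≤ a * P q x := by
  have : c / a ≤ P q x := le_ciInf (fun y => by rw [div_le_iff₀ ha, mul_comm]; exact h y)
  rwa [div_le_iff₀ ha, mul_comm] at this

theorem le_P2 {c a b : ℝ} (ha : 0 < a) (hb : 0 < b) (x w : Fin k → ℝ)
    (h : ∀ y z, c ≤ a * (N q y + S (x - y)) + b * (N q z + S (w - z))) :
    c ≤ a * P q x + b * P q w := by
  have h1 : ∀ z, c - b * (N q z + S (w - z)) ≤ a * P q x :=
    fun z => le_P ha x (fun y => by have := h y z; linarith)
  have h2 : c - a * P q x ≤ b * P q w := le_P hb w (fun z => by have := h1 z; linarith)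
  linarith

theorem P_nonneg (x : Fin k → ℝ) : 0 ≤ P q x :=
  le_ciInf (fun _ => add_nonneg (N_nonneg _) (S_nonneg _))

theorem P_le_S (hq : 1 ≤ q) (x : Fin k → ℝ) : P q x ≤ S x := by
  have h := P_le (q := q) x 0
  have h0 : N q (0 : Fin k → ℝ) = 0 := by simpa using N_smul hq 0 (0 : Fin k → ℝ)
  rwa [h0, zero_add, sub_zero] at h

theorem P_le_N (x : Fin k → ℝ) : P q x ≤ N q x := by
  have h := P_le (q := q) x x
  have h0 : S (0 : Fin k → ℝ) = 0 := by simp [S]
  rwa [sub_self, h0, add_zero] at h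

theorem P_smul (hq : 1 ≤ q) (t : ℝ) (x : Fin k → ℝ) : P q (t • x) ≤ t ^ 2 * P q x := by
  by_cases ht : t = 0
  · have := P_le_S hq (t • x)
    rw [S_smul] at this
    rw [ht] at this ⊢
    simpa using this
  · refine le_P (by positivity) x (fun y => ?_)
    have := P_le (q := q) (t • x) (t • y)
    rw [← smul_sub, N_smul hq, S_smul] at this
    linarith

theorem P_sub (hq : 1 ≤ q) {s t : ℝ} (hs : 0 < s) (ht : 0 < t) (x w : Fin k → ℝ) :
    P q (x + w) ≤ (s + t) / s * P q x + (s + t) / t * P q w := by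
  refine le_P2 (by positivity) (by positivity) x w (fun y z => ?_)
  have h1 := P_le (q := q) (x + w) (y + z)
  have h2 := N_sub hq hs ht y z
  have h3 := S_sub hs ht (x - y) (w - z)
  have e : x + w - (y + z) = x - y + (w - z) := by abel
  rw [e] at h1
  linarith

theorem P_up (x h : Fin k → ℝ) : P q (x + h) + P q (x - h) ≤ 2 * P q x + 2 * S h := by
  have : P q (x + h) + P q (x - h) - 2 * S h ≤ 2 * P q x := by
    refine le_P (by norm_num) x (fun y => ?_)
    have h1 := P_le (q := q) (x + h) y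
    have h2 := P_le (q := q) (x - h) y
    have h3 := S_par (x - y) h
    have e1 : x + h - y = x - y + h := by abel
    have e2 : x - h - y = x - y - h := by abel
    rw [e1] at h1
    rw [e2] at h2
    linarith
  linarith

theorem P_par (hq : 1 ≤ q) (x h : Fin k → ℝ) :
    P q (x + h) + P q (x - h) ≤ 2 ^ (1 - 1 / q) * (2 * P q x + 2 * P q h) := by
  have hq0 : 0 < q := by linarith
  have hκ : (1 : ℝ) ≤ 2 ^ (1 - 1 / q) :=
    Real.one_le_rpow (by norm_num) (by rw [sub_nonneg, div_le_one hq0]; exact hq)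
  set κ : ℝ := 2 ^ (1 - 1 / q) with hκd
  have : P q (x + h) + P q (x - h) ≤ (2 * κ) * P q x + (2 * κ) * P q h := by
    refine le_P2 (by positivity) (by positivity) x h (fun y z => ?_)
    have h1 := P_le (q := q) (x + h) (y + z)
    have h2 := P_le (q := q) (x - h) (y - z)
    have h3 := S_par (x - y) (h - z)
    have h4 := N_par hq y z
    have e1 : x + h - (y + z) = x - y + (h - z) := by abel
    have e2 : x - h - (y - z) = x - y - (h - z) := by abel
    rw [e1] at h1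
    rw [e2] at h2
    have h5 := S_nonneg (x - y)
    have h6 := S_nonneg (h - z)
    rw [← hκd] at h4
    nlinarith
  linarith

theorem P_single (hq : 1 ≤ q) (i : Fin k) : 1 ≤ 2 * P q (Pi.single i 1) := by
  refine le_P (by norm_num) _ (fun y => ?_)
  have h1 : y i ^ 2 ≤ N q y := le_L hq (u := fun j => y j ^ 2) (fun _ => sq_nonneg _) i
  have h2 : ((Pi.single i (1 : ℝ) : Fin k → ℝ) - y) i ^ 2 ≤ S (Pi.single i 1 - y) :=
    single_le_sum (f := fun j => ((Pi.single i (1 : ℝ) : Fin k → ℝ) - y) j ^ 2)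
      (fun j _ => sq_nonneg _) (mem_univ i)
  simp only [Pi.sub_apply, Pi.single_eq_same] at h2
  nlinarith [sq_nonneg (2 * y i - 1)]

end Lq

/-- A copy of the coordinate space, without a norm. -/
def Cp (k : ℕ) : Type := Fin k → ℝ

instance (k : ℕ) : AddCommGroup (Cp k) := inferInstanceAs (AddCommGroup (Fin k → ℝ))
instance (k : ℕ) : Module ℝ (Cp k) := inferInstanceAs (Module ℝ (Fin k → ℝ))

theorem exists_space {k : ℕ} (F : (Fin k → ℝ) → ℝ) (h0 : ∀ x, 0 ≤ F x)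
    (h1 : ∀ x, F x = 0 → x = 0) (h2 : ∀ (t : ℝ) x, F (t • x) ≤ t ^ 2 * F x)
    (h3 : ∀ s t : ℝ, 0 < s → 0 < t → ∀ x y, F (x + y) ≤ (s + t) / s * F x + (s + t) / t * F y) :
    ∃ (X : Type) (_ : NormedAddCommGroup X) (_ : NormedSpace ℝ X) (φ : (Fin k → ℝ) ≃ₗ[ℝ] X),
      ∀ x, ‖φ x‖ ^ 2 = F x := by
  have hs : ∀ (t : ℝ) x, √(F (t • x)) ≤ |t| * √(F x) := by
    intro t x
    rw [← Real.sqrt_sq_eq_abs, ← Real.sqrt_mul (sq_nonneg t)]
    exact Real.sqrt_le_sqrt (h2 t x)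
  have hneg : ∀ x, √(F (-x)) ≤ √(F x) := fun x => by simpa using hs (-1) x
  have hneg' : ∀ x, √(F (-x)) = √(F x) :=
    fun x => le_antisymm (hneg x) (by simpa using hneg (-x))
  have hadd : ∀ x y, √(F (x + y)) ≤ √(F x) + √(F y) := by
    intro x y
    rcases (h0 x).eq_or_lt with hx | hx
    · rw [h1 x hx.symm, zero_add]
      linarith [Real.sqrt_nonneg (F 0)]
    rcases (h0 y).eq_or_lt with hy | hy
    · rw [h1 y hy.symm, add_zero]
      linarith [Real.sqrt_nonneg (F 0)]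
    have a1 := Real.sqrt_pos.mpr hx
    have a2 := Real.sqrt_pos.mpr hy
    have a3 := h3 _ _ a1 a2 x y
    have a4 := Real.sq_sqrt hx.le
    have a5 := Real.sq_sqrt hy.le
    refine Real.sqrt_le_iff.mpr ⟨by positivity, a3.trans (le_of_eq ?_)⟩
    set a := √(F x)
    set b := √(F y)
    rw [← a4, ← a5]
    field_simp
  let g : AddGroupNorm (Cp k) :=
    { toFun := fun x => √(F x)
      map_zero' := by
        have := hs 0 0
        simp only [zero_smul, abs_zero, zero_mul] at this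
        exact le_antisymm this (Real.sqrt_nonneg _)
      add_le' := hadd
      neg' := hneg'
      eq_zero_of_map_eq_zero' := fun x hx => h1 x ((Real.sqrt_eq_zero (h0 x)).mp hx) }
  let I : NormedAddCommGroup (Cp k) := g.toNormedAddCommGroup
  let J : NormedSpace ℝ (Cp k) :=
    { (inferInstance : Module ℝ (Cp k)) with norm_smul_le := fun t x => hs t x }
  exact ⟨Cp k, I, J, LinearEquiv.refl ℝ (Fin k → ℝ), fun x => Real.sq_sqrt (h0 x)⟩

end Pool.Agent.Lib.MP_b372c7_an.Iso
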