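import Mathlib
import Pool.Agent.Lib.MP_b372c7_an.Iso.Block

set_option autoImplicit false

open Filter Topology Finset

namespace Pool.Agent.Lib.MP_b372c7_an.Iso

theorem exists_block (η : ℝ) (hη : 0 < η) (D : ℝ) (hD : 0 ≤ D) :
    ∃ (X : Type) (_ : NormedAddCommGroup X) (_ : NormedSpace ℝ X) (U : ℝ) (k : ℕ)
      (e : Fin k → X), CompleteSpace X ∧ Two X 4 η ∧ 0 < U ∧ Two X U 0 ∧ 0 < k ∧
      (∀ i, 1 ≤ 2 * ‖e i‖ ^ 2) ∧
      ∀ s : Fin k → ℝ, (∀ i, s i ^ 2 = 1) → D * ‖∑ i, s i • e i‖ ^ 2 ≤ k := by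
  set σ : ℝ := min (η / 2) (1 / 2) with hσ
  have hσ0 : 0 < σ := by positivity
  have hσ1 : σ ≤ η / 2 := min_le_left _ _
  have hσ2 : σ ≤ 1 / 2 := min_le_right _ _
  set q : ℝ := 1 / (1 - σ) with hqd
  have hq : 1 ≤ q := by rw [hqd, le_div_iff₀ (by linarith)]; linarith
  have hq1 : 1 / q = 1 - σ := by rw [hqd, one_div_one_div]
  have hκ1 : (2 : ℝ) ^ (1 - 1 / q) ≤ 1 + σ := by
    have := rpow_one_add_le_one_add_mul_self (s := 1) (by norm_num) hσ0.le (by linarith)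
    rw [hq1, sub_sub_cancel]
    norm_num at this
    exact this
  obtain ⟨k, hk1, hk2⟩ : ∃ k : ℕ, 2 * D ≤ (k : ℝ) ^ σ ∧ 1 ≤ k :=
    ((((tendsto_rpow_atTop hσ0).comp tendsto_natCast_atTop_atTop).eventually
      (eventually_ge_atTop (2 * D))).and (eventually_ge_atTop 1)).exists
  have hk : (1 : ℝ) ≤ k := by exact_mod_cast hk2
  have hk0 : (0 : ℝ) < k := by linarith
  set θ : ℝ := 1 / k with hθ
  have hθ0 : 0 < θ := by positivity
  have hθ1 : θ ≤ 1 := by rw [hθ, div_le_one hk0]; exact hk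
  have hθk : θ * k = 1 := by rw [hθ]; field_simp
  set F : (Fin k → ℝ) → ℝ := fun x => P q x + θ * S x with hF
  have hF0 : ∀ x, 0 ≤ F x := fun x => add_nonneg (P_nonneg x) (mul_nonneg hθ0.le (S_nonneg x))
  have hFs : ∀ (t : ℝ) x, F (t • x) ≤ t ^ 2 * F x := by
    intro t x
    have := P_smul hq t x
    simp only [hF, S_smul]
    nlinarith
  obtain ⟨X, I, J, φ, hφ⟩ := exists_space F hF0
    (fun x hx => by
      have h1 := P_nonneg (q := q) x
      have h2 := S_nonneg x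
      have h3 : θ * S x ≤ 0 := by simp only [hF] at hx; linarith
      have h4 : S x = 0 := le_antisymm (by by_contra h; nlinarith [mul_pos hθ0 (not_le.mp h)]) h2
      ext i
      exact pow_eq_zero_iff (two_ne_zero) |>.mp
        ((sum_eq_zero_iff_of_nonneg (fun j _ => sq_nonneg (x j))).mp h4 i (mem_univ i)))
    hFs
    (fun s t hs ht x y => by
      have h1 := P_sub hq hs ht x y
      have h2 := mul_le_mul_of_nonneg_left (S_sub hs ht x y) hθ0.le
      simp only [hF]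
      nlinarith)
  have hfin : FiniteDimensional ℝ X := LinearEquiv.finiteDimensional φ
  have hpar : ∀ x h : X, ‖x + h‖ ^ 2 + ‖x - h‖ ^ 2 ≤ (1 + σ) * (2 * ‖x‖ ^ 2 + 2 * ‖h‖ ^ 2) := by
    intro x h
    obtain ⟨x, rfl⟩ := φ.surjective x
    obtain ⟨h, rfl⟩ := φ.surjective h
    rw [← map_add, ← map_sub, hφ, hφ, hφ, hφ]
    have h1 := P_par hq x h
    have h2 := S_par x h
    have h3 := P_nonneg (q := q) x
    have h4 := P_nonneg (q := q) h
    have h5 : (2 : ℝ) ^ (1 - 1 / q) * (2 * P q x + 2 * P q h) ≤ (1 + σ) * (2 * P q x + 2 * P q h) := by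
      gcongr
    have h6 : 0 ≤ σ * θ * (S x + S h) := by have := S_nonneg x; have := S_nonneg h; positivity
    have h7 : θ * (S (x + h) + S (x - h)) = θ * (2 * S x + 2 * S h) := by rw [h2]
    simp only [hF]
    nlinarith
  refine ⟨X, I, J, 4 * k, k, fun i => φ (Pi.single i 1), FiniteDimensional.complete ℝ X,
    ⟨fun x h => ?_, fun x h => ?_⟩, by positivity, ⟨fun x h => ?_, fun x h => ?_⟩, hk2,
    fun i => ?_, fun s hs => ?_⟩
  · have h1 := hpar x h
    have h2 : σ * ‖x‖ ^ 2 ≤ η / 2 * ‖x‖ ^ 2 := by gcongr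
    have h3 : σ * ‖h‖ ^ 2 ≤ 1 / 2 * ‖h‖ ^ 2 := by gcongr
    nlinarith [sq_nonneg ‖h‖]
  · have h1 := hpar (x + h) (x - h)
    have e1 : x + h + (x - h) = (2 : ℝ) • x := by module
    have e2 : x + h - (x - h) = (2 : ℝ) • h := by module
    rw [e1, e2, norm_smul, norm_smul, Real.norm_ofNat] at h1
    set T := ‖x + h‖ ^ 2 + ‖x - h‖ ^ 2 with hT
    have h2 : 2 * ‖x‖ ^ 2 + 2 * ‖h‖ ^ 2 ≤ (1 + σ) * T := by nlinarith
    have hT0 : 0 ≤ T := by positivity
    have h3 : (1 - σ) * (2 * ‖x‖ ^ 2 + 2 * ‖h‖ ^ 2) ≤ (1 - σ) * ((1 + σ) * T) :=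
      mul_le_mul_of_nonneg_left h2 (by linarith)
    have h4 : 0 ≤ σ ^ 2 * T := by positivity
    have h5 : σ * ‖x‖ ^ 2 ≤ η / 2 * ‖x‖ ^ 2 := by gcongr
    have h6 : σ * ‖h‖ ^ 2 ≤ 1 / 2 * ‖h‖ ^ 2 := by gcongr
    nlinarith [sq_nonneg ‖h‖]
  · obtain ⟨x, rfl⟩ := φ.surjective x
    obtain ⟨h, rfl⟩ := φ.surjective h
    rw [← map_add, ← map_sub, hφ, hφ, hφ, hφ]
    have h1 := P_up (q := q) x h
    have h2 := S_par x h
    have h3 := P_nonneg (q := q) h
    have h4 := S_nonneg h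
    have h7 : θ * (S (x + h) + S (x - h)) = θ * (2 * S x + 2 * S h) := by rw [h2]
    have h8 : θ * S h ≤ 1 * S h := by gcongr
    have h9 : 4 * k * (θ * S h) = 4 * S h := by
      calc 4 * k * (θ * S h) = 4 * (θ * k) * S h := by ring
        _ = _ := by rw [hθk, mul_one]
    have h10 : 0 ≤ 4 * k * P q h := by positivity
    simp only [hF]
    nlinarith
  · obtain ⟨x, rfl⟩ := φ.surjective x
    obtain ⟨h, rfl⟩ := φ.surjective h
    rw [← map_add, ← map_sub, hφ, hφ, hφ, hφ]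
    have h1 := P_sub hq one_pos one_pos ((1 / 2 : ℝ) • (x + h)) ((1 / 2 : ℝ) • (x - h))
    have e1 : (1 / 2 : ℝ) • (x + h) + (1 / 2 : ℝ) • (x - h) = x := by module
    rw [e1] at h1
    have h2 := P_smul hq (1 / 2) (x + h)
    have h3 := P_smul hq (1 / 2) (x - h)
    have h4 := S_par x h
    have h5 := P_le_S hq h
    have h6 := S_nonneg h
    have h7 : θ * (S (x + h) + S (x - h)) = θ * (2 * S x + 2 * S h) := by rw [h4]
    have h8 : θ * S h ≤ 1 * S h := by gcongr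
    have h9 : (P q h + θ * S h) / (4 * k) ≤ 2 * (θ * S h) := by
      rw [div_le_iff₀ (by positivity)]
      have : 2 * (θ * S h) * (4 * k) = 8 * S h := by
        calc 2 * (θ * S h) * (4 * k) = 8 * (θ * k) * S h := by ring
          _ = _ := by rw [hθk, mul_one]
      linarith
    simp only [hF]
    linarith
  · rw [hφ]
    have h1 := P_single hq i
    have h2 := mul_nonneg hθ0.le (S_nonneg (Pi.single i (1 : ℝ) : Fin k → ℝ))
    simp only [hF]
    linarith
  · have e1 : ∑ i, s i • φ (Pi.single i 1) = φ s := by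
      simp only [← map_smul, ← map_sum]
      congr 1
      ext j
      simp [Pi.single_apply]
    rw [e1, hφ]
    have h1 : N q s = (k : ℝ) ^ (1 - σ) := by
      rw [← hq1, ← L_one]
      unfold N
      simp only [hs]
    have h2 : S s = k := by simp [S, hs]
    have h3 := P_le_N (q := q) s
    have h4 : (1 : ℝ) ≤ (k : ℝ) ^ (1 - σ) := Real.one_le_rpow hk (by linarith)
    have h5 : F s ≤ 2 * (k : ℝ) ^ (1 - σ) := by
      simp only [hF]
      rw [h2, hθk]
      linarith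
    have h6 : (k : ℝ) ^ σ * (k : ℝ) ^ (1 - σ) = k := by
      rw [← Real.rpow_add hk0]
      simp
    calc D * F s ≤ D * (2 * (k : ℝ) ^ (1 - σ)) := by gcongr
      _ = 2 * D * (k : ℝ) ^ (1 - σ) := by ring
      _ ≤ (k : ℝ) ^ σ * (k : ℝ) ^ (1 - σ) := by gcongr
      _ = k := h6

theorem Two.mono {X : Type*} [NormedAddCommGroup X] {U U' η η' : ℝ} (h : Two X U η) (hU : 0 < U)
    (h1 : U ≤ U') (h2 : η ≤ η') : Two X U' η' := by
  refine ⟨fun x y => ?_, fun x y => ?_⟩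
  · have a1 := h.1 x y
    have a2 : U * ‖y‖ ^ 2 ≤ U' * ‖y‖ ^ 2 := by gcongr
    have a3 : η * ‖x‖ ^ 2 ≤ η' * ‖x‖ ^ 2 := by gcongr
    linarith
  · have a1 := h.2 x y
    have a2 : ‖y‖ ^ 2 / U' ≤ ‖y‖ ^ 2 / U := by gcongr
    have a3 : η * ‖x‖ ^ 2 ≤ η' * ‖x‖ ^ 2 := by gcongr
    linarith

theorem two_lp {X : ℕ → Type*} [∀ i, NormedAddCommGroup (X i)] {U η : ℝ}
    (h : ∀ i, Two (X i) U η) : Two (lp X 2) U η := by
  have hs : ∀ f : lp X 2, HasSum (fun i => ‖f i‖ ^ 2) (‖f‖ ^ 2) := by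
    intro f
    simpa using lp.hasSum_norm (p := 2) (by norm_num) f
  refine ⟨fun x y => ?_, fun x y => ?_⟩
  · exact hasSum_le (fun i => (h i).1 (x i) (y i)) ((hs (x + y)).add (hs (x - y)))
      ((((hs x).mul_left 2).add ((hs y).mul_left U)).add ((hs x).mul_left η))
  · exact hasSum_le (fun i => (h i).2 (x i) (y i))
      ((((hs x).mul_left 2).add ((hs y).div_const U)).sub ((hs x).mul_left η))
      ((hs (x + y)).add (hs (x - y)))

theorem signs {H : Type*} [NormedAddCommGroup H] [InnerProductSpace ℝ H] :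
    ∀ (k : ℕ) (v : Fin k → H), ∃ s : Fin k → ℝ, (∀ i, s i ^ 2 = 1) ∧
      ∑ i, ‖v i‖ ^ 2 ≤ ‖∑ i, s i • v i‖ ^ 2 := by
  intro k
  induction k with
  | zero => exact fun v => ⟨fun _ => 1, by simp, by simp⟩
  | succ k ih =>
    intro v
    obtain ⟨s, hs, h⟩ := ih (fun i => v i.succ)
    set w := ∑ i, s i • v (Fin.succ i) with hw
    have hp := parallelogram_law_with_norm ℝ w (v 0)
    by_cases hc : ‖w‖ ^ 2 + ‖v 0‖ ^ 2 ≤ ‖w + v 0‖ ^ 2
    · refine ⟨Fin.cons 1 s, fun i => by cases i using Fin.cases <;> simp [hs], ?_⟩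
      rw [Fin.sum_univ_succ, Fin.sum_univ_succ]
      simp only [Fin.cons_zero, Fin.cons_succ, one_smul]
      rw [← hw, add_comm (v 0) w]
      linarith
    · refine ⟨Fin.cons (-1) s, fun i => by cases i using Fin.cases <;> simp [hs], ?_⟩
      rw [Fin.sum_univ_succ, Fin.sum_univ_succ]
      simp only [Fin.cons_zero, Fin.cons_succ, neg_smul, one_smul]
      rw [← hw, add_comm (-v 0) w, ← sub_eq_add_neg]
      nlinarith

theorem exists_space_nq : ∃ (E : Type) (_ : NormedAddCommGroup E) (_ : NormedSpace ℝ E),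
    CompleteSpace E ∧ NQ E ∧
      ∀ (H : Type) [NormedAddCommGroup H] [InnerProductSpace ℝ H], IsEmpty (E ≃L[ℝ] H) := by
  classical
  choose X g s U k e hc h4 hU hT hk he hs using
    fun j m : ℕ => exists_block (1 / ((j : ℝ) + 1)) (by positivity) m (Nat.cast_nonneg m)
  choose ν hν using harm_unbounded
  let st : ℕ → ℝ × ℕ := fun m => Nat.rec (4, 0) (fun m p =>
    (max p.1 (U p.2 m), max p.2 (ν (((m : ℝ) + 1) * (max p.1 (U p.2 m)) ^ 2)))) m
  have st1 : ∀ m, (st (m + 1)).1 = max (st m).1 (U (st m).2 m) := fun m => rfl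
  have st2 : ∀ m, (st (m + 1)).2 = max (st m).2 (ν (((m : ℝ) + 1) * (st (m + 1)).1 ^ 2)) :=
    fun m => rfl
  have m1 : Monotone fun m => (st m).1 :=
    monotone_nat_of_le_succ (fun m => by rw [st1]; exact le_max_left _ _)
  have m2 : Monotone fun m => (st m).2 :=
    monotone_nat_of_le_succ (fun m => by rw [st2]; exact le_max_left _ _)
  have h40 : ∀ m, (4 : ℝ) ≤ (st m).1 := fun m => m1 (Nat.zero_le m)
  let Y : ℕ → Type := fun m => X (st m).2 m
  refine ⟨lp Y 2, inferInstance, inferInstance, inferInstance, fun M => ?_, fun H _ _ => ⟨fun T => ?_⟩⟩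
  · obtain ⟨m, hm⟩ := exists_nat_ge M
    refine ⟨(st (m + 1)).1, 1 / (((st (m + 1)).2 : ℝ) + 1), (st (m + 1)).2,
      by linarith [h40 (m + 1)], by positivity, ?_, ?_, two_lp (fun i => ?_)⟩
    · rw [div_mul_eq_mul_div, one_mul, div_le_one (by positivity)]
      linarith
    · have a1 := hν (((m : ℝ) + 1) * (st (m + 1)).1 ^ 2)
      have a2 : harm (ν (((m : ℝ) + 1) * (st (m + 1)).1 ^ 2)) ≤ harm (st (m + 1)).2 :=
        harm_mono (by rw [st2]; exact le_max_right _ _)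
      have a3 : M * (st (m + 1)).1 ^ 2 ≤ ((m : ℝ) + 1) * (st (m + 1)).1 ^ 2 := by
        gcongr
        linarith
      linarith
    · rcases lt_or_ge i (m + 1) with hi | hi
      · refine (hT (st i).2 i).mono (hU _ _) ?_ (by positivity)
        exact (le_max_right _ _).trans ((st1 i).symm.le.trans (m1 (Nat.succ_le_of_lt hi)))
      · refine (h4 (st i).2 i).mono (by norm_num) (h40 (m + 1)) ?_
        have : ((st (m + 1)).2 : ℝ) ≤ (st i).2 := by exact_mod_cast m2 hi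
        gcongr
  · set C := ‖(T : lp Y 2 →L[ℝ] H)‖ with hC
    set C' := ‖(T.symm : H →L[ℝ] lp Y 2)‖ with hC'
    obtain ⟨m, hm⟩ := exists_nat_gt (2 * C' ^ 2 * C ^ 2)
    let ι : Y m →ₗ[ℝ] lp Y 2 := lp.lsingle 2 m
    have hι : ∀ x, ‖ι x‖ = ‖x‖ := fun x => lp.norm_single (by norm_num) m x
    obtain ⟨σ, hσ, h⟩ := signs (k (st m).2 m) (fun i => T (ι (e (st m).2 m i)))
    have a1 := hs (st m).2 m σ hσ
    have a2 : ∑ i, σ i • T (ι (e (st m).2 m i)) = T (ι (∑ i, σ i • e (st m).2 m i)) := by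
      simp only [map_sum, map_smul]
    have a3 : ‖T (ι (∑ i, σ i • e (st m).2 m i))‖ ≤ C * ‖∑ i, σ i • e (st m).2 m i‖ := by
      rw [← hι]
      exact (T : lp Y 2 →L[ℝ] H).le_opNorm _
    have a4 : ∀ i, 1 ≤ 2 * C' ^ 2 * ‖T (ι (e (st m).2 m i))‖ ^ 2 := by
      intro i
      have b1 := he (st m).2 m i
      have b2 : ‖e (st m).2 m i‖ ≤ C' * ‖T (ι (e (st m).2 m i))‖ := by
        have := (T.symm : H →L[ℝ] lp Y 2).le_opNorm (T (ι (e (st m).2 m i)))
        rwa [ContinuousLinearEquiv.coe_coe, T.symm_apply_apply, hι] at this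
      have b3 : ‖e (st m).2 m i‖ ^ 2 ≤ (C' * ‖T (ι (e (st m).2 m i))‖) ^ 2 := by gcongr
      nlinarith
    have a5 := sum_le_sum (s := univ) (fun i _ => a4 i)
    rw [← mul_sum, sum_const, card_univ, Fintype.card_fin, nsmul_eq_mul, mul_one] at a5
    rw [a2] at h
    set w := ‖∑ i, σ i • e (st m).2 m i‖ with hw
    have a6 : ‖T (ι (∑ i, σ i • e (st m).2 m i))‖ ^ 2 ≤ (C * w) ^ 2 := by gcongr
    have a7 : (k (st m).2 m : ℝ) ≤ 2 * C' ^ 2 * (C * w) ^ 2 :=
      a5.trans (mul_le_mul_of_nonneg_left (h.trans a6) (by positivity))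
    have a8 : (0 : ℝ) < k (st m).2 m := by exact_mod_cast hk (st m).2 m
    have a9 : 0 < w ^ 2 := by
      by_contra hcon
      have : w ^ 2 = 0 := le_antisymm (not_lt.mp hcon) (sq_nonneg _)
      rw [mul_pow, this] at a7
      linarith
    have a10 := mul_lt_mul_of_pos_right hm a9
    nlinarith

end Pool.Agent.Lib.MP_b372c7_an.Iso
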