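import Mathlib
import Pool.Agent.Lib.MP_b372c7_an.Iso.Basic

set_option autoImplicit false

open Filter Topology

namespace Pool.Agent.Lib.MP_b372c7_an.Iso

variable {E : Type*} [NormedAddCommGroup E] [NormedSpace ℝ E]

omit [NormedSpace ℝ E] in
theorem near (hE : NQ E) (ε : ℝ) (hε : 0 < ε) (R : ℝ) (hR : 0 ≤ R) :
    ∃ c, 0 < c ∧ ∀ p q : E, ‖p‖ ^ 2 ≤ R → ‖q‖ ^ 2 ≤ R → ε ≤ ‖p - q‖ →
      2 * ‖p + q‖ ^ 2 + c ≤ 4 * ‖p‖ ^ 2 + 4 * ‖q‖ ^ 2 := by
  obtain ⟨U, η, n, hU, hη, h1, h2, hT⟩ := hE (8 * R / ε ^ 2)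
  have hs := small (by positivity) hU hη h1 h2
  have hU0 : 0 < U := by linarith
  refine ⟨ε ^ 2 / (2 * U), by positivity, fun p q hp hq hd => ?_⟩
  have h3 := hT.2 (p + q) (p - q)
  have e1 : p + q + (p - q) = p + p := by abel
  have e2 : p + q - (p - q) = q + q := by abel
  rw [e1, e2] at h3
  have a1 : ‖p + p‖ ^ 2 ≤ (‖p‖ + ‖p‖) ^ 2 := by have := norm_add_le p p; gcongr
  have a2 : ‖q + q‖ ^ 2 ≤ (‖q‖ + ‖q‖) ^ 2 := by have := norm_add_le q q; gcongr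
  have a3 : ‖p + q‖ ^ 2 ≤ (‖p‖ + ‖q‖) ^ 2 := by have := norm_add_le p q; gcongr
  have a4 : ‖p + q‖ ^ 2 ≤ 4 * R := by nlinarith [sq_nonneg (‖p‖ - ‖q‖)]
  have a5 : η * ‖p + q‖ ^ 2 ≤ η * (4 * R) := by gcongr
  have a6 : ε ^ 2 / U ≤ ‖p - q‖ ^ 2 / U := by gcongr
  have a7 : η * (4 * R) ≤ ε ^ 2 / (2 * U) := by
    rw [div_mul_eq_mul_div, div_le_one (by positivity)] at hs
    rw [le_div_iff₀ (by positivity)]
    nlinarith
  have a8 : ε ^ 2 / U = 2 * (ε ^ 2 / (2 * U)) := by field_simp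
  nlinarith

omit [NormedSpace ℝ E] in
theorem uniform (hE : NQ E) : UniformConvexSpace E := by
  refine ⟨fun ε hε => ?_⟩
  obtain ⟨c, hc, h⟩ := near hE ε hε 1 zero_le_one
  refine ⟨min (c / 8) 1, by positivity, fun x hx y hy hxy => ?_⟩
  have h1 := h x y (by rw [hx]; norm_num) (by rw [hy]; norm_num) hxy
  rw [hx, hy] at h1
  have h2 := min_le_left (c / 8) 1
  have h3 := min_le_right (c / 8) 1
  refine le_of_pow_le_pow_left₀ (n := 2) (by norm_num) (by linarith) ?_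
  nlinarith [sq_nonneg (min (c / 8) 1)]

theorem mid (G : Submodule ℝ E) (x g g' : E) (hg : g ∈ G) (hg' : g' ∈ G) :
    4 * Metric.infDist x (G : Set E) ^ 2 ≤ ‖x - g' + (x - g)‖ ^ 2 := by
  have h3 : x - g' + (x - g) = (2 : ℝ) • (x - (2 : ℝ)⁻¹ • (g + g')) := by
    rw [smul_sub, smul_smul, mul_inv_cancel₀ (by norm_num), one_smul, two_smul]; abel
  have h4 : Metric.infDist x (G : Set E) ≤ ‖x - (2 : ℝ)⁻¹ • (g + g')‖ := by
    rw [← dist_eq_norm]
    exact Metric.infDist_le_dist_of_mem (G.smul_mem _ (G.add_mem hg hg'))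
  have h5 : 0 ≤ Metric.infDist x (G : Set E) := Metric.infDist_nonneg
  rw [h3, norm_smul, Real.norm_ofNat, mul_pow]
  have h6 : Metric.infDist x (G : Set E) ^ 2 ≤ ‖x - (2 : ℝ)⁻¹ • (g + g')‖ ^ 2 := by gcongr
  linarith

theorem nearest_unique (hE : NQ E) (G : Submodule ℝ E) (x g g' : E) (hg : g ∈ G)
    (hg' : g' ∈ G) (h : ‖x - g‖ = Metric.infDist x (G : Set E))
    (h' : ‖x - g'‖ = Metric.infDist x (G : Set E)) : g = g' := by
  by_contra hne
  have hpos : 0 < ‖g - g'‖ := norm_pos_iff.mpr (sub_ne_zero.mpr hne)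
  obtain ⟨c, hc, hn⟩ := near hE _ hpos (Metric.infDist x (G : Set E) ^ 2) (sq_nonneg _)
  have h2 : x - g' - (x - g) = g - g' := by abel
  have h1 := hn (x - g') (x - g) (by rw [h']) (by rw [h]) (by rw [h2])
  have h3 := mid G x g g' hg hg'
  rw [h, h'] at h1
  linarith

theorem nearest_exists [CompleteSpace E] (hE : NQ E) (G : Submodule ℝ E)
    (hG : IsClosed (G : Set E)) (x : E) :
    ∃ g ∈ G, ‖x - g‖ = Metric.infDist x (G : Set E) := by
  set d := Metric.infDist x (G : Set E) with hd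
  have hex : ∀ n : ℕ, ∃ g ∈ G, ‖x - g‖ < d + 1 / ((n : ℝ) + 1) := by
    intro n
    obtain ⟨g, hg, h⟩ := (Metric.infDist_lt_iff (x := x) (s := (G : Set E))
      (r := d + 1 / ((n : ℝ) + 1)) ⟨0, G.zero_mem⟩).mp (lt_add_of_pos_right _ (by positivity))
    exact ⟨g, hg, by rwa [← dist_eq_norm]⟩
  choose g hg hlt using hex
  have hge : ∀ n, d ≤ ‖x - g n‖ := fun n => by
    rw [← dist_eq_norm]; exact Metric.infDist_le_dist_of_mem (hg n)
  have hlim : Tendsto (fun n => ‖x - g n‖) atTop (𝓝 d) := by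
    have h1 : Tendsto (fun n : ℕ => d + 1 / ((n : ℝ) + 1)) atTop (𝓝 (d + 0)) :=
      tendsto_const_nhds.add tendsto_one_div_add_atTop_nhds_zero_nat
    rw [add_zero] at h1
    exact tendsto_of_tendsto_of_tendsto_of_le_of_le tendsto_const_nhds h1 hge (fun n => (hlt n).le)
  have hc : CauchySeq g := by
    rw [Metric.cauchySeq_iff']
    intro ε hε
    obtain ⟨c, hc, hn⟩ := near hE ε hε (d ^ 2 + 1) (by positivity)
    have hpos : 0 < min (c / 8) 1 := by positivity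
    obtain ⟨N, hN⟩ := eventually_atTop.mp
      ((hlim.pow 2).eventually (gt_mem_nhds (lt_add_of_pos_right (d ^ 2) hpos)))
    refine ⟨N, fun n hn' => ?_⟩
    have h2 := hN n hn'
    have h3 := hN N le_rfl
    have h4 := min_le_left (c / 8) 1
    have h5 := min_le_right (c / 8) 1
    rw [dist_eq_norm]
    by_contra hcon
    have e : x - g N - (x - g n) = g n - g N := by abel
    have h1 := hn (x - g N) (x - g n) (by linarith) (by linarith) (by rw [e]; exact not_lt.mp hcon)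
    have h6 := mid G x (g n) (g N) (hg n) (hg N)
    rw [← hd] at h6
    linarith
  obtain ⟨y, hy⟩ := cauchySeq_tendsto_of_complete hc
  refine ⟨y, hG.mem_of_tendsto hy (Eventually.of_forall hg), ?_⟩
  exact tendsto_nhds_unique ((tendsto_const_nhds.sub hy).norm) hlim

theorem opn (f : E →L[ℝ] ℝ) (C : ℝ) (h : ∀ y, ‖y‖ ≤ 1 → f y ≤ C) : ‖f‖ ≤ C := by
  have h0 : 0 ≤ C := by simpa using h 0 (by simp)
  refine ContinuousLinearMap.opNorm_le_of_unit_norm h0 (fun x hx => ?_)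
  have h1 := h x hx.le
  have h2 := h (-x) (by rw [norm_neg]; exact hx.le)
  rw [map_neg] at h2
  rw [Real.norm_eq_abs, abs_le]
  constructor <;> linarith

theorem exn (f : E →L[ℝ] ℝ) (r : ℝ) (h : r < ‖f‖) : ∃ x, ‖x‖ ≤ 1 ∧ r < f x := by
  by_contra hcon
  push Not at hcon
  have := opn f r hcon
  linarith

theorem le_of_unit (f : E →L[ℝ] ℝ) (x : E) (a b : ℝ) (hf : ‖f‖ ≤ a) (hx : ‖x‖ ≤ b) :
    f x ≤ a * b := by
  have h1 := f.le_opNorm x
  have h2 : f x ≤ ‖f x‖ := le_abs_self _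
  have h3 : ‖f‖ * ‖x‖ ≤ a * b := mul_le_mul hf hx (norm_nonneg _) ((norm_nonneg _).trans hf)
  linarith

theorem surj_of [CompleteSpace E] {F : Type*} [NormedAddCommGroup F] [NormedSpace ℝ F]
    (ι : E →ₗᵢ[ℝ] F) (h : ∀ Φ : F, ‖Φ‖ = 1 → ∀ ε, 0 < ε → ∃ x, ‖Φ - ι x‖ < ε) :
    Function.Surjective ι := by
  have hcl : IsClosed (Set.range ι) := ι.isometry.isClosedEmbedding.isClosed_range
  have key : ∀ Φ : F, ‖Φ‖ = 1 → Φ ∈ Set.range ι := by
    intro Φ hΦ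
    rw [← hcl.closure_eq, Metric.mem_closure_iff]
    intro ε hε
    obtain ⟨x, hx⟩ := h Φ hΦ ε hε
    exact ⟨ι x, ⟨x, rfl⟩, by rwa [dist_eq_norm]⟩
  intro Φ
  by_cases h0 : Φ = 0
  · exact ⟨0, by rw [h0, map_zero]⟩
  · have hn : ‖Φ‖ ≠ 0 := norm_ne_zero_iff.mpr h0
    obtain ⟨x, hx⟩ := key (‖Φ‖⁻¹ • Φ) (by rw [norm_smul, norm_inv, norm_norm, inv_mul_cancel₀ hn])
    exact ⟨‖Φ‖ • x, by rw [map_smul, hx, smul_smul, mul_inv_cancel₀ hn, one_smul]⟩

/-- The theorem of Milman and Pettis. -/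
theorem milman_pettis [UniformConvexSpace E] [CompleteSpace E] :
    Function.Surjective (NormedSpace.inclusionInDoubleDual ℝ E) := by
  set ι := NormedSpace.inclusionInDoubleDualLi ℝ (E := E) with hι
  refine surj_of (F := StrongDual ℝ (StrongDual ℝ E)) ι (fun Φ hΦ ε' hε' => ?_)
  set ε := ε' / 3 with hεd
  have hε : 0 < ε := by positivity
  obtain ⟨δ, hδ, hu⟩ := exists_forall_closed_ball_dist_add_le_two_sub E hε
  set t := δ / 2 with ht
  have ht0 : 0 < t := by positivity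
  have htε : 0 < t * ε := by positivity
  obtain ⟨φ, hφ, hφ'⟩ := exn Φ (1 - t * ε) (by linarith)
  have hφ2 : 1 - t * ε < ‖φ‖ := by
    have := le_of_unit Φ φ 1 ‖φ‖ hΦ.le le_rfl
    linarith
  obtain ⟨x, hx, hx'⟩ := exn φ _ hφ2
  refine ⟨x, ?_⟩
  refine lt_of_le_of_lt (opn _ (2 * ε) (fun ψ hψ => ?_)) (by linarith)
  have h1 : ‖φ + t • ψ‖ ≤ 1 + t * ψ x + t * ε := by
    refine opn _ _ (fun y hy => ?_)
    have e : (φ + t • ψ) y = φ y + t * ψ y := rfl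
    rw [e]
    by_cases hxy : ε ≤ ‖x - y‖
    · have a1 := hu hx hy hxy
      have a2 := le_of_unit φ (x + y) 1 _ hφ a1
      have a3 := le_of_unit ψ y 1 1 hψ hy
      have a4 := le_of_unit ψ (-x) 1 1 hψ (by rw [norm_neg]; exact hx)
      rw [map_neg] at a4
      rw [map_add] at a2
      have a5 : t * ψ y ≤ t * 1 := mul_le_mul_of_nonneg_left (by linarith) ht0.le
      have a6 : t * (-1) ≤ t * ψ x := mul_le_mul_of_nonneg_left (by linarith) ht0.le
      linarith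
    · have a2 := le_of_unit φ y 1 1 hφ hy
      have a3 := le_of_unit ψ (y - x) 1 ε hψ (by rw [norm_sub_rev]; exact (not_le.mp hxy).le)
      rw [map_sub] at a3
      have a5 : t * ψ y ≤ t * (ψ x + ε) := mul_le_mul_of_nonneg_left (by linarith) ht0.le
      linarith
  have h2 := le_of_unit Φ _ 1 _ hΦ.le h1
  rw [map_add, map_smul, smul_eq_mul] at h2
  have e : (Φ - ι x) ψ = Φ ψ - ψ x := rfl
  rw [e]
  have h3 : t * (Φ ψ - ψ x) ≤ t * (2 * ε) := by linarith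
  exact le_of_mul_le_mul_left h3 ht0

end Pool.Agent.Lib.MP_b372c7_an.Iso
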